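import Mathlib

/-!
# Squad SGE: universal point subsets (MP_41797f_co), definitions

Text: `/team-store/PAPER_SGE.md`.
-/

open scoped BigOperators

noncomputable section

namespace Pool.Agent.SGE

/-! ## Part C: canonical sequences -/

/-- `Can a b C S`: canonical sequences.  `C` is the current contour (a list from `a` to `b`), `S` the
list of the steps, the last step first; a step `(v, ℓ)` introduces the new vertex `v` above the
contiguous part `ℓ = p :: (mid ++ [q])` of the contour, and `mid` disappears from the contour. -/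
inductive Can {V : Type} (a b : V) : List V → List (V × List V) → Prop
  | base (h : a ≠ b) : Can a b [a, b] []
  | step {P Q mid : List V} {p q v : V} {S : List (V × List V)}
      (h : Can a b (P ++ p :: (mid ++ q :: Q)) S) (ha : v ≠ a) (hb : v ≠ b)
      (hv : ∀ x ∈ S, x.1 ≠ v) :
      Can a b (P ++ p :: v :: q :: Q) ((v, p :: (mid ++ [q])) :: S)

/-- Rightmost canonical sequences: if `mid` is not empty and `m` is its last element, then the last
element of the list of `m` is `q`. -/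
inductive RCan {V : Type} (a b : V) : List V → List (V × List V) → Prop
  | base (h : a ≠ b) : RCan a b [a, b] []
  | step {P Q mid : List V} {p q v : V} {S : List (V × List V)}
      (h : RCan a b (P ++ p :: (mid ++ q :: Q)) S) (ha : v ≠ a) (hb : v ≠ b)
      (hv : ∀ x ∈ S, x.1 ≠ v)
      (hs : ∀ m, mid.getLast? = some m → ∃ y ∈ S, y.1 = m ∧ y.2.getLast? = some q) :
      RCan a b (P ++ p :: v :: q :: Q) ((v, p :: (mid ++ [q])) :: S)

theorem RCan.can {V : Type} {a b : V} {C : List V} {S : List (V × List V)}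
    (h : RCan a b C S) : Can a b C S := by
  induction h with
  | base h => exact Can.base h
  | step h ha hb hv hs ih => exact Can.step ih ha hb hv

/-- `u` is the left end of a step. -/
def IsL {V : Type} (S : List (V × List V)) (u : V) : Prop := ∃ x ∈ S, x.2.head? = some u

/-- `u` is the right end of a step. -/
def IsR {V : Type} (S : List (V × List V)) (u : V) : Prop := ∃ x ∈ S, x.2.getLast? = some u

/-- `x` (from left to right) and `y` (from below to above) are compatible with the sequence. -/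
structure Ord {V : Type} (a b : V) (S : List (V × List V)) (x y : V → ℝ) : Prop where
  ab : x a < x b
  xl : ∀ v ℓ u, (v, ℓ) ∈ S → ℓ.head? = some u → x u < x v
  xr : ∀ v ℓ u, (v, ℓ) ∈ S → ℓ.getLast? = some u → x v < x u
  up : ∀ v ℓ u, (v, ℓ) ∈ S → u ∈ ℓ → y u < y v

/-! ## Part D: drawings -/

/-- straight-line crossing-free drawings -/
structure Draw {V : Type} (G : SimpleGraph V) (f : V → ℝ × ℝ) : Prop where
  inj : Function.Injective f
  cross : ∀ a b c d : V, G.Adj a b → G.Adj c d → s(a, b) ≠ s(c, d) →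
    segment ℝ (f a) (f b) ∩ segment ℝ (f c) (f d) ⊆
      (({f a, f b} : Set (ℝ × ℝ)) ∩ ({f c, f d} : Set (ℝ × ℝ)))
  vert : ∀ v a b : V, G.Adj a b → f v ∈ segment ℝ (f a) (f b) → v = a ∨ v = b

/-- The exploding drawing with columns `x` and levels `y`. -/
def pt {V : Type} (K : ℕ) (x y : V → ℕ) (v : V) : ℝ × ℝ := ((x v : ℝ), (K : ℝ) ^ y v)

/-- No conflicts: if the edge `a₁b₁` has its top `b₁` between the levels of `a₂` and `b₂`, then `a₂`
is not strictly between the columns of `a₁` and `b₁`. -/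
def NC {V α : Type} [LinearOrder α] (G : SimpleGraph V) (x y : V → α) : Prop :=
  ∀ a₁ b₁ a₂ b₂ : V, G.Adj a₁ b₁ → G.Adj a₂ b₂ → y a₁ < y b₁ → y a₂ < y b₁ → y b₁ < y b₂ →
    ¬ (x a₁ < x a₂ ∧ x a₂ < x b₁) ∧ ¬ (x b₁ < x a₂ ∧ x a₂ < x a₁)

/-! ## Part N: near-triangulations -/

/-- consecutive elements of a list -/
def Con {V : Type} (C : List V) (p q : V) : Prop := ∃ P Q, C = P ++ p :: q :: Q

/-- all triples of consecutive elements -/
def Tri {V : Type} (R : V → V → V → Prop) : List V → Prop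
  | x :: w :: y :: L => R x w y ∧ Tri R (w :: y :: L)
  | _ => True

/-- The neighbours of the boundary vertex `w` in counterclockwise order, from `x` to `y`. -/
def Fan {V : Type} (E : V → V → Prop) (F : V → V → V → Prop) (x w y : V) : Prop :=
  ∃ l : List V, l.head? = some x ∧ l.getLast? = some y ∧ l.IsChain (F w) ∧ l.Nodup ∧
    (∀ z, E w z ↔ z ∈ l) ∧ ∀ z, ¬ F w y z

/-- The neighbours of the interior vertex `z` in counterclockwise order, starting at `v`. -/
def Cyc {V : Type} (E : V → V → Prop) (F : V → V → V → Prop) (z v : V) : Prop :=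
  ∃ l : List V, (v :: (l ++ [v])).IsChain (F z) ∧ (v :: l).Nodup ∧ ∀ x, E z x ↔ x ∈ v :: l

/-- Near-triangulations: `a b` is the base edge, `C` the upper contour from `a` to `b`, `E` the
adjacency relation, `F u v w`: the triangle `u v w` is a face, counterclockwise.  `hom`: every even
set of edges is the boundary of a set of faces. -/
structure NT {V : Type} [Fintype V] (a b : V) (C : List V) (E : V → V → Prop)
    (F : V → V → V → Prop) : Prop where
  ab : a ≠ b
  nd : C.Nodup
  hd : C.head? = some a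
  ls : C.getLast? = some b
  sym : ∀ u v, E u v → E v u
  irr : ∀ u, ¬ E u u
  rot : ∀ u v w, F u v w → F v w u
  fn : ∀ u v w w', F u v w → F u v w' → w = w'
  fe : ∀ u v w, F u v w → E u v
  bd : Tri (Fan E F) (b :: (C ++ [a]))
  int : ∀ z v, z ∉ C → E z v → Cyc E F z v
  hom : ∀ Z : V → V → ZMod 2, (∀ u v, Z u v = Z v u) → (∀ u v, Z u v ≠ 0 → E u v) →
    (∀ u, ∑ v, Z u v = 0) → ∃ A : V → V → ZMod 2, (∀ u v w, F u v w → A u v = A v w) ∧
      (∀ u v, (∀ w, ¬ F u v w) → A u v = 0) ∧ ∀ u v, Z u v = A u v + A v u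
  con : ∀ u v, E u v → Relation.ReflTransGen E a u

/-- one more edge `p q` -/
def addE {V : Type} (E : V → V → Prop) (p q : V) : V → V → Prop :=
  fun u w => E u w ∨ (u = p ∧ w = q) ∨ (u = q ∧ w = p)

/-- one more face `x y z` -/
def addF {V : Type} (F : V → V → V → Prop) (x y z : V) : V → V → V → Prop :=
  fun u v w => F u v w ∨ (u = x ∧ v = y ∧ w = z) ∨ (u = y ∧ v = z ∧ w = x) ∨
    (u = z ∧ v = x ∧ w = y)

/-! ## Part G: geometry -/

/-- orientation of three points -/
def o (p q r : ℝ × ℝ) : ℝ := (q.1 - p.1) * (r.2 - p.2) - (q.2 - p.2) * (r.1 - p.1)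

/-- the segments `p q` and `r s` cross -/
def Xs (p q r s : ℝ × ℝ) : Prop := o p q r * o p q s < 0 ∧ o r s p * o r s q < 0

/-- general position -/
structure GP {V : Type} (f : V → ℝ × ℝ) : Prop where
  x : ∀ u v, u ≠ v → (f u).1 ≠ (f v).1
  o : ∀ u v w, u ≠ v → u ≠ w → v ≠ w → o (f u) (f v) (f w) ≠ 0

/-- maximal crossing-free sets of segments -/
structure Tr {V : Type} (f : V → ℝ × ℝ) (T : V → V → Prop) : Prop where
  gp : GP f
  sym : ∀ u v, T u v → T v u
  irr : ∀ u, ¬ T u u
  cf : ∀ u v w z, T u v → T w z → ¬ Xs (f u) (f v) (f w) (f z)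
  mx : ∀ u v, u ≠ v → (∀ w z, T w z → ¬ Xs (f u) (f v) (f w) (f z)) → T u v

/-- the outer triangle -/
structure OT {V : Type} (f : V → ℝ × ℝ) (a b c : V) : Prop where
  ac : a ≠ c
  bc : b ≠ c
  xa : ∀ v, v ≠ a → (f a).1 < (f v).1
  xb : ∀ v, v ≠ b → (f v).1 < (f b).1
  yc : ∀ v, v ≠ c → (f v).2 < (f c).2
  oab : ∀ v, v ≠ a → v ≠ b → 0 < o (f a) (f b) (f v)
  oac : ∀ v, v ≠ a → v ≠ c → o (f a) (f c) (f v) < 0
  ocb : ∀ v, v ≠ c → v ≠ b → o (f c) (f b) (f v) < 0

/-- the height of the line `g h` at the abscissa `x` -/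
def ht (g h : ℝ × ℝ) (x : ℝ) : ℝ := g.2 + (h.2 - g.2) / (h.1 - g.1) * (x - g.1)

/-- empty counterclockwise triangles with sides in `T` -/
structure Fc {V : Type} (f : V → ℝ × ℝ) (T : V → V → Prop) (p q r : V) : Prop where
  pos : 0 < o (f p) (f q) (f r)
  pq : T p q
  qr : T q r
  rp : T r p
  em : ∀ z, ¬ (0 < o (f p) (f q) (f z) ∧ 0 < o (f q) (f r) (f z) ∧ 0 < o (f r) (f p) (f z))

/-- The state of the sweep: `C` is an `x`-monotone path from `a` to `b`, `E` and `F` are the edges
and triangles below it. -/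
structure Sw {V : Type} [Fintype V] (f : V → ℝ × ℝ) (T : V → V → Prop) (a b : V) (C : List V)
    (E : V → V → Prop) (F : V → V → V → Prop) : Prop where
  nt : NT a b C E F
  sub : ∀ u v, E u v → T u v
  mono : C.Pairwise (fun u v => (f u).1 < (f v).1)
  i1 : ∀ p q, Con C p q → ∀ z x, E z x → (f p).1 < (f z).1 → (f z).1 < (f q).1 →
    o (f p) (f q) (f z) < 0
  i1' : ∀ p q, Con C p q → ∀ z, (∀ x, ¬ E z x) → (f p).1 < (f z).1 → (f z).1 < (f q).1 →
    0 < o (f p) (f q) (f z)
  i2 : ∀ u w, E u w → ∀ p ∈ C, (f u).1 < (f p).1 → (f p).1 < (f w).1 → 0 < o (f u) (f w) (f p)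
  i4 : ∀ z x w, z ∉ C → E z x → T z w → E z w
  i5 : ∀ p q, Con C p q → ∀ w, T p w → ¬ E p w → (f p).1 < (f w).1 → 0 < o (f p) (f q) (f w)
  i5' : ∀ p q, Con C p q → ∀ w, T q w → ¬ E q w → (f w).1 < (f q).1 → 0 < o (f p) (f q) (f w)

end Pool.Agent.SGE
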