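import Pool.Agent.SGE.Defs

/-!
# Squad SGE: the statements of the modules

Text: `/team-store/PAPER_SGE.md`.
-/

open scoped BigOperators

noncomputable section

namespace Pool.Agent.SGE

/-! ## Part C -/

/-- CB: basic facts. -/
def CbStmt : Prop := ∀ {V : Type} {a b : V} {C : List V} {S : List (V × List V)}, Can a b C S →
  a ≠ b ∧ C.Nodup ∧ (∃ D, C = a :: (D ++ [b])) ∧ (∀ u ∈ C, u = a ∨ u = b ∨ ∃ x ∈ S, x.1 = u) ∧
  (S.map Prod.fst).Nodup ∧ (∀ x ∈ S, x.1 ≠ a ∧ x.1 ≠ b ∧ x.1 ∉ x.2 ∧ x.2.Nodup ∧ 2 ≤ x.2.length ∧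
    ∀ u ∈ x.2, u = a ∨ u = b ∨ ∃ y ∈ S, y.1 = u)

/-- MIR: mirror images. -/
def MirStmt : Prop := ∀ {V : Type} {a b : V} {C : List V} {S : List (V × List V)}, Can a b C S →
  Can b a C.reverse (S.map fun x => (x.1, x.2.reverse))

/-- COU: the number of leaves. -/
def CouStmt : Prop := ∀ {V : Type} [DecidableEq V] {a b c : V} {S : List (V × List V)},
  RCan a b [a, c, b] S → 2 ≤ S.length → open Classical in
  S.length ≤ ((S.map Prod.fst).filter (fun u => u ≠ c ∧ ¬ IsL S u)).length +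
    ((S.map Prod.fst).filter (fun u => u ≠ c ∧ ¬ IsR S u)).length

/-- INT: intervals. -/
def IntStmt : Prop := ∀ {V : Type} {a b : V} {C : List V} {S : List (V × List V)}, Can a b C S →
  ∃ x y : V → ℝ, Ord a b S x y ∧
    (∀ u w, (u = a ∨ u = b ∨ ∃ z ∈ S, z.1 = u) → (w = a ∨ w = b ∨ ∃ z ∈ S, z.1 = w) → u ≠ w →
      x u ≠ x w ∧ y u ≠ y w) ∧
    ∀ u w, (∃ z ∈ S, z.1 = u) → (∃ z ∈ S, z.1 = w) → ¬ IsR S u → ¬ IsR S w →
      (x u < x w ↔ y u < y w)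

/-- NCX: no conflicts. -/
def NcxStmt : Prop := ∀ {V : Type} {a b : V} {C : List V} {S : List (V × List V)}, Can a b C S →
  ∀ {x y : V → ℝ}, Ord a b S x y → ∀ b₁ ℓ₁ a₁ b₂ ℓ₂ a₂, (b₁, ℓ₁) ∈ S → a₁ ∈ ℓ₁ → (b₂, ℓ₂) ∈ S →
  a₂ ∈ ℓ₂ → y b₁ < y b₂ → y a₂ < y b₁ →
    ¬ (x a₁ < x a₂ ∧ x a₂ < x b₁) ∧ ¬ (x b₁ < x a₂ ∧ x a₂ < x a₁)

/-! ## Part D -/

/-- EXP: exploding drawings. -/
def ExpStmt : Prop := ∀ {V : Type} (G : SimpleGraph V) (K W : ℕ) (x y : V → ℕ),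
  Function.Injective x → Function.Injective y → (∀ v, x v ≤ W) → 8 * (W + 1) ≤ K → NC G x y →
  Draw G (pt K x y)

/-- POS: positions.  The `i`-th element of `A` (from left to right and from below to above) gets
column and level `c (i + 1)`; the other columns and levels are congruent to `r` modulo `4`. -/
def PosStmt : Prop := ∀ {V : Type} [Fintype V] [DecidableEq V] (n : ℕ), Fintype.card V ≤ n →
  ∀ (x y : V → ℝ), Function.Injective x → Function.Injective y → ∀ A : Finset V,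
  (∀ u ∈ A, ∀ w ∈ A, (x u < x w ↔ y u < y w)) → ∀ r : ℕ, 1 ≤ r → r ≤ 3 →
  ∃ x' y' : V → ℕ, (∀ u w, x' u < x' w ↔ x u < x w) ∧ (∀ u w, y' u < y' w ↔ y u < y w) ∧
    (∀ v ∉ A, x' v % 4 = r ∧ y' v % 4 = r) ∧ (∀ v ∈ A, x' v = y' v) ∧
    (∀ v, x' v ≤ 4 * (n + 1) ^ 2 ∧ y' v ≤ 4 * (n + 1) ^ 2) ∧
    A.image x' = (Finset.range A.card).image fun i => 4 * (n + 1) * (i + 1)

/-! ## Part N -/

/-- NT0: the edge `a b`. -/
def Nt0Stmt : Prop := ∀ {V : Type} [Fintype V] {a b : V}, a ≠ b →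
  NT a b [a, b] (fun u w => (u = a ∧ w = b) ∨ (u = b ∧ w = a)) (fun _ _ _ => False)

/-- NTA: a new vertex `v` above the contour edge `p q`. -/
def NtaStmt : Prop := ∀ {V : Type} [Fintype V] {a b : V} {P Q : List V} {p q v : V}
  {E : V → V → Prop} {F : V → V → V → Prop}, NT a b (P ++ p :: q :: Q) E F → (∀ x, ¬ E v x) →
  NT a b (P ++ p :: v :: q :: Q) (addE (addE E p v) q v) (addF F p q v)

/-- NTB: a new edge `p q` above the contour vertex `v`. -/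
def NtbStmt : Prop := ∀ {V : Type} [Fintype V] {a b : V} {P Q : List V} {p v q : V}
  {E : V → V → Prop} {F : V → V → V → Prop}, NT a b (P ++ p :: v :: q :: Q) E F → ¬ E p q →
  NT a b (P ++ p :: q :: Q) (addE E p q) (addF F p v q)

/-- CHD: chords do not cross. -/
def ChdStmt : Prop := ∀ {V : Type} [Fintype V] {a b : V} {P M Q : List V} {u w : V}
  {E : V → V → Prop} {F : V → V → V → Prop}, NT a b (P ++ u :: (M ++ w :: Q)) E F → M ≠ [] →
  E u w → ∀ z ∈ M, ∀ x ∈ P ++ u :: (M ++ w :: Q), E z x → x ∈ u :: (M ++ [w])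

/-- REM: removal of a contour vertex without chords. -/
def RemStmt : Prop := ∀ {V : Type} [Fintype V] {a b : V} {P Q : List V} {p v q : V}
  {E : V → V → Prop} {F : V → V → V → Prop}, NT a b (P ++ p :: v :: q :: Q) E F →
  (∀ x ∈ P ++ p :: v :: q :: Q, E v x → x = p ∨ x = q) →
  ∃ (mid : List V) (E' : V → V → Prop) (F' : V → V → V → Prop),
    NT a b (P ++ p :: (mid ++ q :: Q)) E' F' ∧ (∀ u w, E' u w ↔ E u w ∧ u ≠ v ∧ w ≠ v) ∧
    ∀ x, E v x ↔ x ∈ p :: (mid ++ [q])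

/-- EXV: the rightmost contour vertex without chords. -/
def ExvStmt : Prop := ∀ {V : Type} [Fintype V] {a b : V} {C : List V}
  {E : V → V → Prop} {F : V → V → V → Prop}, NT a b C E F → C ≠ [a, b] →
  ∃ (P : List V) (p v q : V) (Q : List V), C = P ++ p :: v :: q :: Q ∧
    (∀ x ∈ C, E v x → x = p ∨ x = q) ∧ (q = b ∨ ∃ z ∈ P ++ [p], E q z)

/-- CNS: canonical sequences of near-triangulations. -/
def CnsStmt : Prop := ∀ {V : Type} [Fintype V] {a b : V} {C : List V}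
  {E : V → V → Prop} {F : V → V → V → Prop}, NT a b C E F → ∃ S, RCan a b C S ∧
  (∀ v x, E v x → v = a ∨ v = b ∨ ∃ y ∈ S, y.1 = v) ∧
  (∀ u w, E u w → (u = a ∧ w = b) ∨ (u = b ∧ w = a) ∨ (∃ y ∈ S, y.1 = u ∧ w ∈ y.2) ∨
    ∃ y ∈ S, y.1 = w ∧ u ∈ y.2) ∧
  ∀ (P : List V) (w w' : V) (Q : List V), C = P ++ w :: w' :: Q → w ≠ a →
    (w' = b ∨ ∃ z ∈ P, E w' z) → ∃ y ∈ S, y.1 = w ∧ y.2.getLast? = some w'

/-! ## Part G -/

/-- ORI: the orientation; all the elementary facts used (Grassmann-Plücker relations). -/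
def FcrStmt : Prop := ∀ {V : Type} {f : V → ℝ × ℝ} {T : V → V → Prop} {p q r : V},
  Fc f T p q r → Fc f T q r p

/-- SEG: segments which meet in general position cross, and segments which cross meet. -/
def SegStmt : Prop := ∀ p q r s : ℝ × ℝ,
  (Xs p q r s → (segment ℝ p q ∩ segment ℝ r s).Nonempty) ∧
  (o p q r ≠ 0 → o p q s ≠ 0 → o r s p ≠ 0 → o r s q ≠ 0 →
    (segment ℝ p q ∩ segment ℝ r s).Nonempty → Xs p q r s)

/-- PER: perturbation to general position. -/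
def PerStmt : Prop := ∀ {V : Type} [Finite V] (f : V → ℝ × ℝ) (R : V → V → V → V → Prop)
  (O : V → V → V → Prop) (L M : V → V → Prop),
  (∀ u v w z, R u v w z → Disjoint (segment ℝ (f u) (f v)) (segment ℝ (f w) (f z))) →
  (∀ u v w, O u v w → 0 < o (f u) (f v) (f w)) → (∀ u v, L u v → (f u).1 < (f v).1) →
  (∀ u v, M u v → (f u).2 < (f v).2) → ∃ g : V → ℝ × ℝ, GP g ∧
  (∀ u v w z, R u v w z → Disjoint (segment ℝ (g u) (g v)) (segment ℝ (g w) (g z))) ∧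
  (∀ u v w, O u v w → 0 < o (g u) (g v) (g w)) ∧ (∀ u v, L u v → (g u).1 < (g v).1) ∧
  ∀ u v, M u v → (g u).2 < (g v).2

/-- OUT: a planar graph on `Fin n` in general position inside a triangle. -/
def OutStmt : Prop := ∀ {n : ℕ} (G : SimpleGraph (Fin n)), (∃ f, Draw G f) →
  ∃ g : Fin n ⊕ Fin 3 → ℝ × ℝ, GP g ∧ OT g (Sum.inr 0) (Sum.inr 1) (Sum.inr 2) ∧
    ∀ u v w z, G.Adj u v → G.Adj w z →
      ¬ Xs (g (Sum.inl u)) (g (Sum.inl v)) (g (Sum.inl w)) (g (Sum.inl z))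

/-- TMX: maximal crossing-free sets. -/
def TmxStmt : Prop := ∀ {V : Type} [Finite V] {f : V → ℝ × ℝ} (D : V → V → Prop), GP f →
  (∀ u v, D u v → D v u) → (∀ u, ¬ D u u) →
  (∀ u v w z, D u v → D w z → ¬ Xs (f u) (f v) (f w) (f z)) →
  ∃ T, Tr f T ∧ ∀ u v, D u v → T u v

/-- HUL: the outer edges are in `T`. -/
def HulStmt : Prop := ∀ {V : Type} {f : V → ℝ × ℝ} {T : V → V → Prop} {a b c : V}, Tr f T →
  OT f a b c → T a b ∧ T a c ∧ T c b

/-- TRI: a segment which leaves a triangle. -/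
def TriStmt : Prop := ∀ p q r u w k : ℝ × ℝ, 0 < o p q k → 0 < o r p k → 0 ≤ o q r k →
  k ∈ openSegment ℝ u w → 0 < o q r u → o u w p ≠ 0 → o u w q ≠ 0 → o u w r ≠ 0 → o p q u ≠ 0 →
  o r p u ≠ 0 → (0 < o p q u ∧ 0 < o r p u) ∨ Xs p q u w ∨ Xs p r u w

/-- FCE: the face on the left of an edge `p q`, if `p` has a neighbour on the left. -/
def FceStmt : Prop := ∀ {V : Type} [Finite V] {f : V → ℝ × ℝ} {T : V → V → Prop} {p q : V},
  Tr f T → T p q → (∃ r, T p r ∧ 0 < o (f p) (f q) (f r)) → ∃ r, Fc f T p q r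

/-- ANG: no edge enters the angle of a face. -/
def AngStmt : Prop := ∀ {V : Type} [Finite V] {f : V → ℝ × ℝ} {T : V → V → Prop} {p q r z : V},
  Tr f T → Fc f T p q r → T p z → ¬ (0 < o (f p) (f q) (f z) ∧ 0 < o (f r) (f p) (f z))

/-- VIS: the edge `g h` is the first edge above `p`; then `p` has a neighbour on the left side in the
triangle of `p`, `g` and the point of `g h` above `p`. -/
def VisStmt : Prop := ∀ {V : Type} [Finite V] {f : V → ℝ × ℝ} {T : V → V → Prop} {p g h : V},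
  Tr f T → T g h → (f g).1 < (f p).1 → (f p).1 < (f h).1 → o (f g) (f h) (f p) < 0 →
  (∀ g' h', T g' h' → (f g').1 < (f p).1 → (f p).1 < (f h').1 → o (f g') (f h') (f p) < 0 →
    ht (f g) (f h) (f p).1 ≤ ht (f g') (f h') (f p).1) →
  ∃ s, T p s ∧ (f g).1 ≤ (f s).1 ∧ (f s).1 < (f p).1 ∧ (s = g ∨ o (f g) (f h) (f s) < 0) ∧
    (s = g ∨ o (f p) (f g) (f s) < 0)

/-- PNT: every vertex has a neighbour above. -/
def PntStmt : Prop := ∀ {V : Type} [Finite V] {f : V → ℝ × ℝ} {T : V → V → Prop} {a b c p q : V},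
  Tr f T → OT f a b c → T p q → (f p).1 < (f q).1 → ¬ (p = a ∧ q = c) → ¬ (p = c ∧ q = b) →
  ∃ r, T p r ∧ 0 < o (f p) (f q) (f r)

/-- SW0: the first state of the sweep. -/
def Sw0Stmt : Prop := ∀ {V : Type} [Fintype V] {f : V → ℝ × ℝ} {T : V → V → Prop} {a b c : V},
  Tr f T → OT f a b c → Sw f T a b [a, b] (fun u w => (u = a ∧ w = b) ∨ (u = b ∧ w = a))
    (fun _ _ _ => False)

/-- SWA: advance over a triangle with a new vertex. -/
def SwaStmt : Prop := ∀ {V : Type} [Fintype V] {f : V → ℝ × ℝ} {T : V → V → Prop} {a b : V}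
  {P Q : List V} {p q r : V} {E : V → V → Prop} {F : V → V → V → Prop}, Tr f T →
  Sw f T a b (P ++ p :: q :: Q) E F → Fc f T p q r → (f p).1 < (f r).1 → (f r).1 < (f q).1 →
  (∀ x, ¬ E r x) ∧
    Sw f T a b (P ++ p :: r :: q :: Q) (addE (addE E p r) q r) (addF F p q r)

/-- SWB: advance over a triangle with a new edge. -/
def SwbStmt : Prop := ∀ {V : Type} [Fintype V] {f : V → ℝ × ℝ} {T : V → V → Prop} {a b : V}
  {P Q : List V} {p v q : V} {E : V → V → Prop} {F : V → V → V → Prop}, Tr f T →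
  Sw f T a b (P ++ p :: v :: q :: Q) E F → Fc f T p v q →
  ¬ E p q ∧ Sw f T a b (P ++ p :: q :: Q) (addE E p q) (addF F p v q)

/-- ADV: one can advance. -/
def AdvStmt : Prop := ∀ {V : Type} [Fintype V] {f : V → ℝ × ℝ} {T : V → V → Prop} {a b c : V}
  {C : List V} {E : V → V → Prop} {F : V → V → V → Prop}, Tr f T → OT f a b c →
  Sw f T a b C E F → C = [a, c, b] ∨
    (∃ (P : List V) (p q : V) (Q : List V) (r : V), C = P ++ p :: q :: Q ∧ Fc f T p q r ∧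
      (f p).1 < (f r).1 ∧ (f r).1 < (f q).1) ∨
    ∃ (P : List V) (p v q : V) (Q : List V), C = P ++ p :: v :: q :: Q ∧ Fc f T p v q

/-- SWE: the last state of the sweep. -/
def SweStmt : Prop := ∀ {V : Type} [Fintype V] {f : V → ℝ × ℝ} {T : V → V → Prop} {a b c : V},
  Tr f T → OT f a b c → ∃ E F, NT a b [a, c, b] E F ∧ (∀ u v, T u v → E u v) ∧
    ∀ v, ∃ x, E v x

/-! ## The end -/

/-- GEO: planar graphs have rightmost canonical sequences. -/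
def GeoStmt : Prop := ∀ {n : ℕ} (G : SimpleGraph (Fin n)), (∃ f, Draw G f) →
  ∃ S : List ((Fin n ⊕ Fin 3) × List (Fin n ⊕ Fin 3)),
    RCan (Sum.inr 0) (Sum.inr 1) [Sum.inr 0, Sum.inr 2, Sum.inr 1] S ∧
    (∀ v : Fin n, ∃ y ∈ S, y.1 = Sum.inl v) ∧
    ∀ u w, G.Adj u w → (∃ y ∈ S, y.1 = Sum.inl u ∧ Sum.inl w ∈ y.2) ∨
      ∃ y ∈ S, y.1 = Sum.inl w ∧ Sum.inl u ∈ y.2

/-- ORD: every planar graph on `Fin n` has orders `x`, `y` without conflicts and a set `A` of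
`n / 2 + 1` vertices on which they agree. -/
def OrdStmt : Prop := ∀ {n : ℕ}, 0 < n → ∀ G : SimpleGraph (Fin n), (∃ f, Draw G f) →
  ∃ x y : Fin n → ℝ, Function.Injective x ∧ Function.Injective y ∧ NC G x y ∧
    ∃ A : Finset (Fin n), A.card = n / 2 + 1 ∧ ∀ u ∈ A, ∀ w ∈ A, (x u < x w ↔ y u < y w)

/-- UNI: the universal point subset. -/
def UniStmt : Prop := ∀ n : ℕ, 0 < n → ∃ Q : Finset (ℝ × ℝ), Q.card = n / 2 + 1 ∧
  ∀ G : SimpleGraph (Fin n), (∃ f, Draw G f) → ∃ f, Draw G f ∧ ∀ q ∈ Q, ∃ v, f v = q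

/-- PAI: pairs of planar graphs with isolated vertices. -/
def PaiStmt : Prop := ∀ N m₁ m₂ : ℕ, 0 < m₁ → m₁ ≤ m₂ → m₁ + m₂ ≤ N + (m₁ / 2 + 1) →
  ∀ G₁ G₂ : SimpleGraph (Fin N), (∃ f, Draw G₁ f) → (∃ f, Draw G₂ f) →
  G₁.support.ncard ≤ m₁ → G₂.support.ncard ≤ m₂ →
  ∃ P : Finset (ℝ × ℝ), P.card = N ∧ ∃ f₁ f₂ : Fin N → ℝ × ℝ, Draw G₁ f₁ ∧ Draw G₂ f₂ ∧
    (∀ v, f₁ v ∈ P) ∧ ∀ v, f₂ v ∈ P

end Pool.Agent.SGE
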